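import Pool.Agent.H267.QL.Rank

/-!
# Near relations of every degree between `log 2` and `π²`

The numbers `log 2` and `iπ` are logarithms of the algebraic numbers `2` and `-1`; they are algebraically independent if and
only if `log 2` and `π²` are. For every `D` there are `κ, c > 0` such that for every `H ≥ 1` the following holds for the integer
polynomials `Q` in two variables, of height at most `H`, with `|Q(log 2, π²)| < c H ^ (-κ)` (near relations at the scale `H`).

* If there is a near relation `≠ 0` of degree at most `D` in each variable, then all of them are divisible by one irreducible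
  polynomial `F` of total degree at least `2`, and those of total degree at most `2` are integer multiples of `F`.
* Linearly independent near relations of total degree at most `D` are at most `D (D - 1) / 2` in number: none for `D = 1`,
  at most one for `D = 2`.

The proof uses the library's measure of linear independence of `1, log 2, π²` (exponent `223`), its transcendence measures of
`log 2`, the theorem that near relations between such a number and an arbitrary number have a common irreducible factor at every
scale, and bounds for the heights of the cofactors of linear polynomials.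
-/

set_option autoImplicit false

namespace Pool.Agent.Results.MP_16b26a_nt.LogTwoAndPiSquared

open Polynomial

/-- The value `P(log 2, π²)` of a polynomial `P` in `Y` whose coefficients are polynomials in `X`. -/
noncomputable def value (P : ℤ[X][X]) : ℝ := (P.map (aeval (Real.log 2)).toRingHom).eval (Real.pi ^ 2)

/-- The degree in each of the variables `X` and `Y` is at most `D`. -/
def DegreeLe (D : ℕ) (P : ℤ[X][X]) : Prop := P.natDegree ≤ D ∧ ∀ j, (P.coeff j).natDegree ≤ D

/-- The total degree is at most `D`. -/
def TotalDegreeLe (D : ℕ) (P : ℤ[X][X]) : Prop := ∀ i j, D < i + j → (P.coeff j).coeff i = 0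

/-- All coefficients have absolute value at most `H`. -/
def HeightLe (H : ℝ) (P : ℤ[X][X]) : Prop := ∀ i j, |((P.coeff j).coeff i : ℝ)| ≤ H

/-- **Near relations between `log 2` and `π²`.**

1. For every `D` there are `κ, c > 0` such that for every `H ≥ 1`: if some integer polynomial `P ≠ 0` of degree at most `D` in
each variable and of height at most `H` satisfies `|P(log 2, π²)| < c H ^ (-κ)`, then there is an irreducible polynomial `F`
of positive degree in `Y` and of total degree at least `2` which divides all such polynomials; and all `P ≠ 0` of total degree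
at most `2` and height at most `H` with `|P(log 2, π²)| < c H ^ (-κ)` are integer multiples of `F`.
2. For every `D` there are `κ, c > 0` such that for every `H ≥ 1` at most `D (D - 1) / 2` linearly independent integer
polynomials of total degree at most `D` and of height at most `H` satisfy `|P(log 2, π²)| < c H ^ (-κ)`. -/
theorem result :
    (∀ D : ℕ, ∃ κ c : ℝ, 0 < κ ∧ 0 < c ∧ ∀ H : ℝ, 1 ≤ H →
      (∃ P : ℤ[X][X], P ≠ 0 ∧ DegreeLe D P ∧ HeightLe H P ∧ |value P| < c * H ^ (-κ)) →
      ∃ F : ℤ[X][X], Irreducible F ∧ 0 < F.natDegree ∧ ¬ TotalDegreeLe 1 F ∧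
        (∀ Q : ℤ[X][X], DegreeLe D Q → HeightLe H Q → |value Q| < c * H ^ (-κ) → F ∣ Q) ∧
        ∀ P : ℤ[X][X], P ≠ 0 → TotalDegreeLe 2 P → HeightLe H P → |value P| < c * H ^ (-κ) →
          ∃ a : ℤ, a ≠ 0 ∧ P = C (C a) * F) ∧
    (∀ D : ℕ, ∃ κ c : ℝ, 0 < κ ∧ 0 < c ∧ ∀ H : ℝ, 1 ≤ H → ∀ (n : ℕ) (P : Fin n → ℤ[X][X]),
      LinearIndependent ℤ P → (∀ k, TotalDegreeLe D (P k) ∧ HeightLe H (P k) ∧
        |value (P k)| < c * H ^ (-κ)) → n ≤ D * (D - 1) / 2) := by
  refine ⟨fun D => ?_, fun D => Pool.Agent.H267.QL.rank D⟩
  obtain ⟨κ, c, hκ, hc, h⟩ := Pool.Agent.H267.QL.core_gen D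
  refine ⟨κ, c, hκ, hc, fun H hH hex => ?_⟩
  obtain ⟨F, h1, h2, h3, h4, h5⟩ := h H hH hex
  refine ⟨F, h1, h2, fun hT => ?_, h4, h5⟩
  obtain ⟨a, b, d, e⟩ := Pool.Agent.H267.QL.tot_one F hT
  exact h3 a b d e

end Pool.Agent.Results.MP_16b26a_nt.LogTwoAndPiSquared
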